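import Pool.Agent.H12.TG.Mean

set_option autoImplicit false

/-!
# MP_96a252_nt: the geometric mean of a piece of a trajectory of the Collatz permutation

The proof is in `Pool/Agent/H12/TG/Mean.lean`.
-/

namespace Pool.Agent.Results.MP_96a252_nt.GeometricMean

/-- The map `T` of the problem file. -/
def T (x : ℤ) : ℤ :=
  if x % 3 = 0 then 2 * x / 3 else if x % 3 = 1 then (4 * x - 1) / 3 else (4 * x + 1) / 3

/-- The exponent `log_3 (sqrt 3 + sqrt (3/2)) = 0.98679...`. -/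
noncomputable def γ : ℝ := Real.logb 3 (√3 + √(3 / 2))

/-- For `c < 1 / γ`, for all large `K` and every nonzero `n`, either `T ^ p n = n` for some
`1 ≤ p < K`, or the geometric mean of the numbers `|T ^ i n|`, `i < K`, is at least `K ^ c`. -/
theorem result (c : ℝ) (hc : c < 1 / γ) :
    ∃ K₀ : ℕ, ∀ n : ℤ, n ≠ 0 → ∀ K : ℕ, K₀ ≤ K →
      (∃ p : ℕ, 1 ≤ p ∧ p < K ∧ T^[p] n = n) ∨
        c * (K * Real.log K) ≤ ∑ i ∈ Finset.range K, Real.log |((T^[i] n : ℤ) : ℝ)| :=
  Pool.Agent.H12.TG.mean c hc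

end Pool.Agent.Results.MP_96a252_nt.GeometricMean
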