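import Pool.Agent.H12.TG.Growth

set_option autoImplicit false

/-!
# MP_96a252_nt: growth of the trajectories of the Collatz permutation

The proof is in `Pool/Agent/H12/TG/Growth.lean`.
-/

namespace Pool.Agent.Results.MP_96a252_nt.TrajectoryGrowth

/-- The map `T` of the problem file. -/
def T (x : ℤ) : ℤ :=
  if x % 3 = 0 then 2 * x / 3 else if x % 3 = 1 then (4 * x - 1) / 3 else (4 * x + 1) / 3

/-- The exponent `log_3 (sqrt 3 + sqrt (3/2)) = 0.98679...`. -/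
noncomputable def γ : ℝ := Real.logb 3 (√3 + √(3 / 2))

/-- For `1 ≤ θ < 1 / γ` and `ξ < (1 - γ) / (2 - γ - 1 / θ)` (a number in `(1/2, 1]`), for all large
`K` and every nonzero `n`, either `T ^ p n = n` for some `1 ≤ p < K`, or at least `ξ K` of the
numbers `T ^ i n`, `i < K`, are at least `K ^ θ` in absolute value. -/
theorem result :
    1.013 < 1 / γ ∧ ∀ θ ξ : ℝ, 1 ≤ θ → θ < 1 / γ → ξ < (1 - γ) / (2 - γ - 1 / θ) →
      ∃ K₀ : ℕ, ∀ n : ℤ, n ≠ 0 → ∀ K : ℕ, K₀ ≤ K →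
        (∃ p : ℕ, 1 ≤ p ∧ p < K ∧ T^[p] n = n) ∨
          ξ * K ≤ (((Finset.range K).filter
            (fun i => (K : ℝ) ^ θ ≤ |((T^[i] n : ℤ) : ℝ)|)).card : ℝ) :=
  Pool.Agent.H12.TG.main

end Pool.Agent.Results.MP_96a252_nt.TrajectoryGrowth
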